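import Mathlib
import Pool.Agent.Helper67.W.TF3
import Pool.Agent.Helper67.Unstable

set_option autoImplicit false
open MeasureTheory SchwartzMap

namespace Pool.Agent.Results.MP_f7be6d_mp.TFNotLowerBound

/-- Physical space. -/
abbrev Space := EuclideanSpace ℝ (Fin 3)

/-- Configuration space of `N` electrons: the coordinate `(i, c)` is the `c`-th coordinate of the
position of electron `i`. -/
abbrev Config (N : ℕ) := EuclideanSpace ℝ (Fin N × Fin 3)

/-- The position of electron `i` in the configuration `x`. -/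
noncomputable def pos {N : ℕ} (x : Config N) (i : Fin N) : Space :=
  WithLp.toLp 2 (fun c => WithLp.ofLp x (i, c))

/-- Wave functions of `N` electrons with two spin states each: one Schwartz function on
configuration space for every spin configuration. -/
abbrev Wave (N : ℕ) := (Fin N → Fin 2) → 𝓢(Config N, ℂ)

/-- Antisymmetry under simultaneous permutation of positions and spins. -/
def Antisymmetric {N : ℕ} (ψ : Wave N) : Prop :=
  ∀ (τ : Equiv.Perm (Fin N)) (σ : Fin N → Fin 2) (x : Config N),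
    ψ (σ ∘ τ) (WithLp.toLp 2 (fun p => WithLp.ofLp x (τ p.1, p.2))) =
      ((Equiv.Perm.sign τ : ℤ) : ℂ) * ψ σ x

/-- The squared `L²` norm. -/
noncomputable def normSq {N : ℕ} (ψ : Wave N) : ℝ := ∑ σ, ∫ x : Config N, ‖ψ σ x‖ ^ 2

/-- The kinetic energy `⟨ψ, -∑ Δ_i ψ⟩ = ∫ |∇ψ|²`. -/
noncomputable def kinetic {N : ℕ} (ψ : Wave N) : ℝ :=
  ∑ σ, ∫ x : Config N, ∑ p : Fin N × Fin 3,
    ‖fderiv ℝ (fun y => ψ σ y) x (EuclideanSpace.single p 1)‖ ^ 2

/-- The potential `V(x) = ∑ z_j / |x - R_j|` of the nuclei. -/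
noncomputable def V {k : ℕ} (z : Fin k → ℝ) (R : Fin k → Space) (x : Space) : ℝ :=
  ∑ j, z j / ‖x - R j‖

/-- The repulsion `U = ∑_{i<j} z_i z_j / |R_i - R_j|` of the nuclei. -/
noncomputable def U {k : ℕ} (z : Fin k → ℝ) (R : Fin k → Space) : ℝ :=
  ∑ i, ∑ j, if i < j then z i * z j / ‖R i - R j‖ else 0

/-- The quadratic form `⟨ψ, H_N ψ⟩`. -/
noncomputable def energyQ {N k : ℕ} (z : Fin k → ℝ) (R : Fin k → Space) (ψ : Wave N) : ℝ :=
  kinetic ψ + (∑ σ, ∫ x : Config N,
    ((∑ i, ∑ j, if i < j then 1 / ‖pos x i - pos x j‖ else 0) - ∑ i, V z R (pos x i))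
      * ‖ψ σ x‖ ^ 2) + U z R * normSq ψ

/-- The quantum ground state energy `inf spec H_N`: the infimum of the form over normalised
antisymmetric Schwartz wave functions. -/
noncomputable def EQ (N : ℕ) {k : ℕ} (z : Fin k → ℝ) (R : Fin k → Space) : EReal :=
  ⨅ (ψ : Wave N) (_ : Antisymmetric ψ) (_ : normSq ψ = 1), ((energyQ z R ψ : ℝ) : EReal)

/-- The Thomas-Fermi kinetic constant for two spin states. -/
noncomputable def gammaTF : ℝ := 3 / 5 * (3 * Real.pi ^ 2) ^ (2 / 3 : ℝ)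

/-- Admissible densities: `ρ ≥ 0`, `ρ ∈ L¹ ∩ L^{5/3}`, `∫ ρ ≤ N`. -/
structure Admissible (N : ℕ) (ρ : Space → ℝ) : Prop where
  nonneg : ∀ x, 0 ≤ ρ x
  integrable : Integrable ρ
  integrable_rpow : Integrable (fun x => (ρ x) ^ (5 / 3 : ℝ))
  mass : ∫ x, ρ x ≤ N

/-- The direct energy `D(ρ,ρ) = 1/2 ∬ ρ(x)ρ(y)/|x-y|`. -/
noncomputable def direct (ρ : Space → ℝ) : ℝ := 1 / 2 * ∫ x, ∫ y, ρ x * ρ y / ‖x - y‖

/-- The Thomas-Fermi functional. -/
noncomputable def energyTF {k : ℕ} (z : Fin k → ℝ) (R : Fin k → Space) (ρ : Space → ℝ) : ℝ :=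
  gammaTF * (∫ x, (ρ x) ^ (5 / 3 : ℝ)) - (∫ x, V z R x * ρ x) + direct ρ + U z R

/-- The Thomas-Fermi energy. -/
noncomputable def ETF (N : ℕ) {k : ℕ} (z : Fin k → ℝ) (R : Fin k → Space) : EReal :=
  ⨅ (ρ : Space → ℝ) (_ : Admissible N ρ), ((energyTF z R ρ : ℝ) : EReal)

lemma U_one (z : Fin 1 → ℝ) (R : Fin 1 → Space) : U z R = 0 := by
  simp [U]

lemma norm_pos (x : Config 1) : ‖pos x 0‖ = ‖x‖ := by
  rw [EuclideanSpace.norm_eq, EuclideanSpace.norm_eq, Fintype.sum_prod_type]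
  simp [pos]

/-- one particle kinetic energy -/
noncomputable def kin1 (f : 𝓢(Config 1, ℂ)) : ℝ :=
  ∫ x : Config 1, ∑ p : Fin 1 × Fin 3,
    ‖fderiv ℝ (fun y => f y) x (EuclideanSpace.single p 1)‖ ^ 2

/-- one particle attraction -/
noncomputable def att1 (f : 𝓢(Config 1, ℂ)) : ℝ := ∫ x : Config 1, 1 / ‖x‖ * ‖f x‖ ^ 2

/-- one particle norm -/
noncomputable def nrm1 (f : 𝓢(Config 1, ℂ)) : ℝ := ∫ x : Config 1, ‖f x‖ ^ 2

/-- the trial state -/
noncomputable def trial (f : 𝓢(Config 1, ℂ)) : Wave 1 := fun σ => if σ 0 = 0 then f else 0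

lemma trial_anti (f : 𝓢(Config 1, ℂ)) : Antisymmetric (trial f) := by
  intro τ σ x
  have hτ : τ = 1 := Subsingleton.elim _ _
  subst hτ
  simp

lemma sum_trial {g : 𝓢(Config 1, ℂ) → ℝ} (hg : g 0 = 0) (f : 𝓢(Config 1, ℂ)) :
    ∑ σ, g (trial f σ) = g f := by
  have : ∀ σ : Fin 1 → Fin 2, g (trial f σ) = if σ 0 = 0 then g f else 0 := by
    intro σ
    unfold trial
    split_ifs <;> simp [hg]
  simp_rw [this]
  rw [Fintype.sum_equiv (Equiv.funUnique (Fin 1) (Fin 2))
    (fun σ : Fin 1 → Fin 2 => if σ 0 = 0 then g f else 0)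
    (fun s : Fin 2 => if s = 0 then g f else 0) (fun σ => rfl)]
  simp

lemma energy_trial (z : ℝ) (f : 𝓢(Config 1, ℂ)) :
    energyQ (fun _ : Fin 1 => z) (fun _ => 0) (trial f) = kin1 f - z * att1 f := by
  unfold energyQ
  rw [U_one, zero_mul, add_zero]
  have h1 : kinetic (trial f) = kin1 f := by
    apply sum_trial (g := fun f => kin1 f)
    simp [kin1]
  have h2 : (∑ σ, ∫ x : Config 1,
    ((∑ i, ∑ j, if i < j then 1 / ‖pos x i - pos x j‖ else 0) -
      ∑ i, V (fun _ : Fin 1 => z) (fun _ => 0) (pos x i))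
      * ‖trial f σ x‖ ^ 2) = - (z * att1 f) := by
    have h3 : ∀ σ, (∫ x : Config 1,
      ((∑ i, ∑ j, if i < j then 1 / ‖pos x i - pos x j‖ else 0) -
        ∑ i, V (fun _ : Fin 1 => z) (fun _ => 0) (pos x i))
        * ‖trial f σ x‖ ^ 2) = - (z * att1 (trial f σ)) := by
      intro σ
      unfold att1
      rw [← integral_const_mul, ← integral_neg]
      congr 1
      funext x
      simp [V, norm_pos]
      ring
    simp_rw [h3]
    apply sum_trial (g := fun f => - (z * att1 f))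
    simp [att1]
  rw [h1, h2]
  ring

lemma norm_trial (f : 𝓢(Config 1, ℂ)) : normSq (trial f) = nrm1 f := by
  apply sum_trial (g := fun f => nrm1 f)
  simp [nrm1]

/-- dilation -/
noncomputable def dil (l : ℝ) (hl : l ≠ 0) : Config 1 ≃L[ℝ] Config 1 :=
  ContinuousLinearEquiv.smulLeft (Units.mk0 l hl)

lemma dil_apply (l : ℝ) (hl : l ≠ 0) (x : Config 1) : dil l hl x = l • x := rfl

/-- the dilated function -/
noncomputable def dilf (l : ℝ) (hl : l ≠ 0) (a : ℝ) (f : 𝓢(Config 1, ℂ)) : 𝓢(Config 1, ℂ) :=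
  (a : ℂ) • compCLMOfContinuousLinearEquiv ℂ (dil l hl) f

lemma dilf_apply (l : ℝ) (hl : l ≠ 0) (a : ℝ) (f : 𝓢(Config 1, ℂ)) (x : Config 1) :
    dilf l hl a f x = (a : ℂ) * f (l • x) := rfl

lemma finrank_config : Module.finrank ℝ (Config 1) = 3 := by
  simp [Config]

lemma nrm_dilf (l : ℝ) (hl : 0 < l) (a : ℝ) (f : 𝓢(Config 1, ℂ)) :
    nrm1 (dilf l hl.ne' a f) = a ^ 2 * (l ^ 3)⁻¹ * nrm1 f := by
  unfold nrm1
  have h1 : ∀ x : Config 1, ‖dilf l hl.ne' a f x‖ ^ 2 = a ^ 2 * ‖f (l • x)‖ ^ 2 := by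
    intro x
    rw [dilf_apply, norm_mul, mul_pow, Complex.norm_real, Real.norm_eq_abs, sq_abs]
  simp_rw [h1]
  rw [integral_const_mul, Measure.integral_comp_smul volume (fun x : Config 1 => ‖f x‖ ^ 2) l,
    finrank_config, abs_of_pos (by positivity), smul_eq_mul]
  ring

lemma att_dilf (l : ℝ) (hl : 0 < l) (a : ℝ) (f : 𝓢(Config 1, ℂ)) :
    att1 (dilf l hl.ne' a f) = a ^ 2 * (l ^ 3)⁻¹ * l * att1 f := by
  unfold att1
  have h1 : ∀ x : Config 1, 1 / ‖x‖ * ‖dilf l hl.ne' a f x‖ ^ 2 =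
      a ^ 2 * l * (1 / ‖l • x‖ * ‖f (l • x)‖ ^ 2) := by
    intro x
    rw [dilf_apply, norm_mul, mul_pow, Complex.norm_real, Real.norm_eq_abs, sq_abs, norm_smul,
      Real.norm_of_nonneg hl.le]
    rcases eq_or_ne x 0 with rfl | hx
    · simp
    · have : ‖x‖ ≠ 0 := norm_ne_zero_iff.mpr hx
      field_simp
  simp_rw [h1]
  rw [integral_const_mul,
    Measure.integral_comp_smul volume (fun x : Config 1 => 1 / ‖x‖ * ‖f x‖ ^ 2) l,
    finrank_config, abs_of_pos (by positivity), smul_eq_mul]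
  ring

lemma kin_dilf (l : ℝ) (hl : 0 < l) (a : ℝ) (f : 𝓢(Config 1, ℂ)) :
    kin1 (dilf l hl.ne' a f) = a ^ 2 * (l ^ 3)⁻¹ * l ^ 2 * kin1 f := by
  unfold kin1
  have h0 : ∀ (x v : Config 1), fderiv ℝ (fun y => dilf l hl.ne' a f y) x v =
      (a : ℂ) * ((l : ℂ) * fderiv ℝ (fun y => f y) (l • x) v) := by
    intro x v
    have hd : HasFDerivAt (fun y => dilf l hl.ne' a f y)
        ((a : ℂ) • ((fderiv ℝ (fun y => f y) (l • x)).comp
          (l • ContinuousLinearMap.id ℝ (Config 1)))) x := by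
      have e1 : HasFDerivAt (fun y : Config 1 => l • y) (l • ContinuousLinearMap.id ℝ (Config 1)) x :=
        (hasFDerivAt_id x).const_smul l
      have e2 : HasFDerivAt (fun y : Config 1 => f y) (fderiv ℝ (fun y => f y) (l • x)) (l • x) :=
        (f.differentiableAt).hasFDerivAt
      exact (e2.comp x e1).const_smul (a : ℂ)
    rw [hd.fderiv]
    simp
  have h1 : ∀ x : Config 1, ∑ p : Fin 1 × Fin 3,
      ‖fderiv ℝ (fun y => dilf l hl.ne' a f y) x (EuclideanSpace.single p 1)‖ ^ 2 =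
      a ^ 2 * l ^ 2 * ∑ p : Fin 1 × Fin 3,
      ‖fderiv ℝ (fun y => f y) (l • x) (EuclideanSpace.single p 1)‖ ^ 2 := by
    intro x
    rw [Finset.mul_sum]
    refine Finset.sum_congr rfl fun p _ => ?_
    rw [h0, norm_mul, norm_mul, mul_pow, mul_pow, Complex.norm_real, Real.norm_eq_abs, sq_abs,
      Complex.norm_real, Real.norm_eq_abs, sq_abs]
    ring
  simp_rw [h1]
  rw [integral_const_mul,
    Measure.integral_comp_smul volume (fun x : Config 1 => ∑ p : Fin 1 × Fin 3,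
      ‖fderiv ℝ (fun y => f y) x (EuclideanSpace.single p 1)‖ ^ 2) l,
    finrank_config, abs_of_pos (by positivity), smul_eq_mul]
  ring

/-- Upper bound for the quantum energy of one electron and one nucleus. -/
lemma quantum_upper : ∃ c : ℝ, 0 < c ∧ ∀ z : ℝ, 0 < z →
    EQ 1 (fun _ : Fin 1 => z) (fun _ => 0) ≤ ((-(c * z ^ 2) : ℝ) : EReal) := by
  obtain ⟨f, hfc, hf0⟩ := Helper67.exists_test
  have hcont : Continuous (fun x : Config 1 => f x) := f.continuous
  have hn : 0 < nrm1 f := by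
    apply Continuous.integral_pos_of_hasCompactSupport_nonneg_nonzero (x := (0 : Config 1))
    · fun_prop
    · exact hfc.comp_left (g := fun w : ℂ => ‖w‖ ^ 2) (by simp)
    · intro x
      positivity
    · simp [hf0]
  have hattint : Integrable (fun x : Config 1 => 1 / ‖x‖ * ‖f x‖ ^ 2) := by
    have h := Helper67.att_integrable f (0 : Fin 1) (fun _ => 0)
    refine h.congr (Filter.Eventually.of_forall fun x => ?_)
    simp [Helper67.dp, Helper67.norm_cfg_one]
  have hA : 0 < att1 f := by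
    unfold att1
    have hlow : Integrable (fun x : Config 1 => (1 / (‖x‖ + 1)) * ‖f x‖ ^ 2) := by
      apply Helper67.weight_integrable f (A := 1)
      · refine continuous_const.div (by fun_prop) ?_
        intro x
        positivity
      · intro x
        rw [abs_of_nonneg (by positivity), one_mul]
        rw [div_le_iff₀ (by positivity)]
        nlinarith [norm_nonneg x]
    have hpos : 0 < ∫ x : Config 1, (1 / (‖x‖ + 1)) * ‖f x‖ ^ 2 := by
      apply Continuous.integral_pos_of_hasCompactSupport_nonneg_nonzero (x := (0 : Config 1))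
      · refine Continuous.mul (continuous_const.div (by fun_prop) ?_) (by fun_prop)
        intro x
        positivity
      · have h1 : HasCompactSupport (fun x : Config 1 => ‖f x‖ ^ 2) :=
          hfc.comp_left (g := fun w : ℂ => ‖w‖ ^ 2) (by simp)
        exact h1.mul_left
      · intro x
        positivity
      · simp [hf0]
    refine hpos.trans_le (integral_mono_ae hlow hattint ?_)
    have hne : ∀ᵐ x : Config 1, x ≠ 0 := by
      rw [ae_iff]
      simp
    filter_upwards [hne] with x hx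
    have hx' : 0 < ‖x‖ := norm_pos_iff.mpr hx
    have : 1 / (‖x‖ + 1) ≤ 1 / ‖x‖ := one_div_le_one_div_of_le hx' (by linarith)
    exact mul_le_mul_of_nonneg_right this (by positivity)
  have hK : 0 ≤ kin1 f := integral_nonneg fun x => Finset.sum_nonneg fun p _ => by positivity
  set t : ℝ := att1 f / (2 * (kin1 f + 1)) with ht
  have ht0 : 0 < t := by positivity
  refine ⟨t * att1 f / (2 * nrm1 f), by positivity, fun z hz => ?_⟩
  have hl : 0 < t * z := by positivity
  set a : ℝ := Real.sqrt ((t * z) ^ 3 / nrm1 f) with ha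
  have ha2 : a ^ 2 = (t * z) ^ 3 / nrm1 f := Real.sq_sqrt (by positivity)
  have hnorm : normSq (trial (dilf (t * z) hl.ne' a f)) = 1 := by
    rw [norm_trial, nrm_dilf _ hl, ha2]
    field_simp
  have hen : energyQ (fun _ : Fin 1 => z) (fun _ => 0) (trial (dilf (t * z) hl.ne' a f)) ≤
      -(t * att1 f / (2 * nrm1 f) * z ^ 2) := by
    rw [energy_trial, kin_dilf _ hl, att_dilf _ hl, ha2]
    have e1 : (t * z) ^ 3 / nrm1 f * ((t * z) ^ 3)⁻¹ * (t * z) ^ 2 * kin1 f -
        z * ((t * z) ^ 3 / nrm1 f * ((t * z) ^ 3)⁻¹ * (t * z) * att1 f) =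
        z ^ 2 * t / nrm1 f * (t * kin1 f - att1 f) := by
      field_simp
    rw [e1]
    have e2 : t * kin1 f ≤ att1 f / 2 := by
      rw [ht, div_mul_eq_mul_div, div_le_div_iff₀ (by positivity) (by norm_num)]
      nlinarith
    have e3 : t * kin1 f - att1 f ≤ -(att1 f / 2) := by linarith
    calc z ^ 2 * t / nrm1 f * (t * kin1 f - att1 f)
        ≤ z ^ 2 * t / nrm1 f * (-(att1 f / 2)) :=
          mul_le_mul_of_nonneg_left e3 (by positivity)
      _ = -(t * att1 f / (2 * nrm1 f) * z ^ 2) := by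
          field_simp
  unfold EQ
  refine (iInf_le_of_le (trial (dilf (t * z) hl.ne' a f)) ?_)
  refine (iInf_le_of_le (trial_anti _) ?_)
  refine (iInf_le_of_le hnorm ?_)
  exact EReal.coe_le_coe_iff.mpr hen

/-- Q1 is false as posed: the Thomas-Fermi energy is not a lower bound for the quantum ground
state energy. -/
theorem result : ∃ (N k : ℕ) (z : Fin k → ℝ) (R : Fin k → Space),
    1 ≤ N ∧ 1 ≤ k ∧ (∀ j, 0 < z j) ∧ Function.Injective R ∧ EQ N z R < ETF N z R := by
  obtain ⟨c, hc, hQ⟩ := quantum_upper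
  have hγ : 0 < gammaTF := by
    unfold gammaTF
    positivity
  obtain ⟨C, hC, hT⟩ := Helper67.W.tf_lower (T := c) hγ hc
  -- choose z small
  set s : ℝ := c / (4 * (C + 1)) with hs
  have hs0 : 0 < s := by positivity
  refine ⟨1, 1, fun _ => s ^ 2, fun _ => 0, le_rfl, le_rfl, fun _ => by positivity,
    fun a b _ => Subsingleton.elim _ _, ?_⟩
  have hz : 0 < s ^ 2 := by positivity
  have hlow : ((-(c / 2 * (s ^ 2) ^ 2) - C * (s ^ 2) ^ (5 / 2 : ℝ) : ℝ) : EReal) ≤
      ETF 1 (fun _ : Fin 1 => s ^ 2) (fun _ => 0) := by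
    unfold ETF
    refine le_iInf fun ρ => le_iInf fun hρ => ?_
    rw [EReal.coe_le_coe_iff]
    have h := hT (s ^ 2) ρ hz.le hρ.nonneg hρ.integrable hρ.integrable_rpow
    unfold energyTF direct
    rw [U_one, add_zero]
    refine h.trans (le_of_eq ?_)
    congr 2
    congr 1
    funext x
    simp [V]
  refine lt_of_le_of_lt (hQ (s ^ 2) hz) (lt_of_lt_of_le ?_ hlow)
  rw [EReal.coe_lt_coe_iff]
  have e1 : (s ^ 2) ^ (5 / 2 : ℝ) = s ^ 5 := by
    rw [← Real.rpow_natCast, ← Real.rpow_mul hs0.le]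
    norm_num
  rw [e1]
  have e2 : C * s < c / 2 := by
    rw [hs, mul_div_assoc', div_lt_div_iff₀ (by positivity) (by norm_num)]
    nlinarith
  have e3 : 0 < s ^ 4 := by positivity
  have e4 : C * s ^ 5 < c / 2 * s ^ 4 := by
    calc C * s ^ 5 = (C * s) * s ^ 4 := by ring
      _ < c / 2 * s ^ 4 := mul_lt_mul_of_pos_right e2 e3
  have e5 : (s ^ 2) ^ 2 = s ^ 4 := by ring
  rw [e5]
  linarith

end Pool.Agent.Results.MP_f7be6d_mp.TFNotLowerBound
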